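import Pool.Agent.H37.Attr1

set_option autoImplicit false

open Pool.Agent.H37.Attr

/-- Every attractive c.e. degree is high. -/
theorem Pool.Agent.Results.MP_ef7593_lc.High.result :
    ∀ A : ℕ → Bool, CEDeg A → Attractive A →
      TuringEquivalent (ora (jump A)) (ora (jump (jump fun _ => false))) :=
  fun _ => high
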